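import Pool.Agent.Q136.NCC.Stm

/-!
# Project NCC: the lemma CN0 (normal rational curves through a basis)
-/

set_option autoImplicit false

open Finset

namespace Pool.Agent.Q185.NCC

open Pool.Agent.Q136.RNC Pool.Agent.Q136.NCC

lemma arc_iff {F : Type} [Field F] {k : ℕ} (w : Fin (k + 1) → Fin k → F) :
    Arc w ↔ ∀ (g : Fin (k + 1) → F) (m : Fin (k + 1)), g m = 0 → ∑ i, g i • w i = 0 → ∀ i, g i = 0 := by
  classical
  constructor
  · intro h g m hm hs i
    have hli := h (univ.erase m) (by simp)
    rw [Fintype.linearIndependent_iff] at hli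
    have h0 : ∑ i : (univ.erase m : Finset (Fin (k + 1))), g i • w i = 0 := by
      rw [Finset.sum_coe_sort (univ.erase m) (fun i => g i • w i)]
      rw [← hs, ← Finset.add_sum_erase _ _ (mem_univ m), hm]
      simp
    by_cases him : i = m
    · rw [him, hm]
    · exact hli (fun i => g i) h0 ⟨i, by simp [him]⟩
  · intro h S hS
    obtain ⟨m, hm⟩ : ∃ m, m ∉ S := by
      by_contra hc
      push Not at hc
      have : S = univ := by ext i; simp [hc i]
      rw [this] at hS
      simp at hS
    rw [Fintype.linearIndependent_iff]
    intro g hg i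
    have h1 : ∑ i, (if hi : i ∈ S then g ⟨i, hi⟩ else 0) • w i = 0 := by
      rw [← hg, ← Finset.sum_subset (Finset.subset_univ S)]
      · rw [← Finset.sum_coe_sort S]
        apply Finset.sum_congr rfl
        intro i _
        simp
      · intro x _ hx
        simp [hx]
    have h2 := h (fun i => if hi : i ∈ S then g ⟨i, hi⟩ else 0) m (by simp [hm]) h1 i
    simpa using h2

lemma arc_li {F : Type} [Field F] {k : ℕ} (v : Fin k → Fin k → F) (h : Arc v) : LinearIndependent F v := by
  have h1 := h univ (by simp)
  have h2 := h1.comp (fun i : Fin k => (⟨i, mem_univ i⟩ : (univ : Finset (Fin k)))) (by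
    intro a b hab
    simpa using hab)
  exact h2

lemma nrc_inj {F : Type} [Field F] {k : ℕ} (hk : 2 ≤ k) (c c' : F) (s s' : Option F) (hc : c ≠ 0) (hc' : c' ≠ 0)
    (h : c • nrc k s = c' • nrc k s') : c = c' ∧ s = s' := by
  have h0 := congrFun h ⟨0, by omega⟩
  have h1 := congrFun h ⟨1, by omega⟩
  have h2 := congrFun h ⟨k - 1, by omega⟩
  rcases s with _ | s <;> rcases s' with _ | s'
  · refine ⟨?_, rfl⟩
    have : k - 1 + 1 = k := by omega
    simpa [nrc, this] using h2
  · exfalso
    have hk1 : ¬ (1 = k) := by omega
    simp [nrc, hk1] at h0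
    exact hc' h0.symm
  · exfalso
    have hk1 : ¬ (1 = k) := by omega
    simp [nrc, hk1] at h0
    exact hc h0
  · have h3 : c = c' := by simpa [nrc] using h0
    refine ⟨h3, ?_⟩
    subst h3
    have h4 : c * s = c * s' := by simpa [nrc] using h1
    rw [mul_left_cancel₀ hc h4]

theorem t_CN0 (hCN1 : S_CN1) (hNAR : S_NAR) : S_CN0 := by
  intro F _ _ k v hk hkq hv
  classical
  have hli := arc_li v hv
  set q := Fintype.card F with hq
  have : Nonempty (Fin k) := ⟨⟨0, by omega⟩⟩
  let b : Module.Basis (Fin k) F (Fin k → F) := basisOfLinearIndependentOfCardEqFinrank hli (by simp)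
  have hb : ∀ i, b i = v i := fun i => by simp [b]
  -- the coordinates
  have hrep : ∀ i j, b.repr (v i) j = if i = j then 1 else 0 := by
    intro i j
    rw [← hb i, b.repr_self, Finsupp.single_apply]
  let G : Finset (Fin k → F) := univ.filter (fun x => ∀ j, b.repr x j ≠ 0)
  have hG : G.card = (q - 1) ^ k := by
    have h1 : G.card = (Fintype.piFinset (fun _ : Fin k => (univ : Finset F).erase 0)).card := by
      refine Finset.card_bij (fun x _ => fun j => b.repr x j) ?_ ?_ ?_
      · intro x hx
        simp only [G, mem_filter, mem_univ, true_and] at hx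
        simp only [Fintype.mem_piFinset, mem_erase, mem_univ, and_true]
        exact hx
      · intro x _ y _ hxy
        apply b.repr.injective
        ext j
        exact congrFun hxy j
      · intro y hy
        simp only [Fintype.mem_piFinset, mem_erase, mem_univ, and_true] at hy
        refine ⟨b.equivFun.symm y, ?_, ?_⟩
        · simp only [G, mem_filter, mem_univ, true_and]
          intro j
          have := congrFun (b.equivFun.apply_symm_apply y) j
          rw [Module.Basis.equivFun_apply] at this
          rw [this]
          exact hy j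
        · funext j
          have := congrFun (b.equivFun.apply_symm_apply y) j
          rw [Module.Basis.equivFun_apply] at this
          exact this
    rw [h1, Fintype.card_piFinset]
    simp [hq]
  let T : Finset (Set (Fin k → F)) := (thru v).toFinset
  have hT : (thru v).ncard = T.card := Set.ncard_eq_toFinset_card' (thru v)
  have hTm : ∀ A, A ∈ T ↔ (∃ φ : (Fin k → F) ≃ₗ[F] (Fin k → F), A = cone φ) ∧ ∀ i, v i ∈ A := by
    intro A
    exact Set.mem_toFinset
  -- (1)
  have hone : ∀ x ∈ G, (T.filter (fun A => x ∈ A)).card = (q - 2).descFactorial (k - 2) := by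
    intro x hx
    simp only [G, mem_filter, mem_univ, true_and] at hx
    have harc : Arc (Fin.snoc v x : Fin (k + 1) → Fin k → F) := by
      rw [arc_iff]
      intro g m hm hs
      rw [Fin.sum_univ_castSucc] at hs
      simp only [Fin.snoc_castSucc, Fin.snoc_last] at hs
      have hc : ∀ j, g j.castSucc + g (Fin.last k) * b.repr x j = 0 := by
        intro j
        have h1 := congrArg (fun y => b.repr y j) hs
        simpa [map_sum, map_smul, hrep, Finsupp.add_apply, Finsupp.smul_apply, Finset.sum_apply'] using h1
      have hl : g (Fin.last k) = 0 := by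
        induction m using Fin.lastCases with
        | last => exact hm
        | cast j =>
          have h1 := hc j
          rw [hm, zero_add] at h1
          exact (mul_eq_zero.mp h1).resolve_right (hx j)
      intro i
      induction i using Fin.lastCases with
      | last => exact hl
      | cast j =>
        have h1 := hc j
        rw [hl, zero_mul, add_zero] at h1
        exact h1
    have h2 := hCN1 F k (Fin.snoc v x) hk hkq harc
    rw [← h2, ← Set.ncard_coe_finset]
    congr 1
    ext A
    rw [Finset.mem_coe, mem_filter, hTm A]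
    constructor
    · rintro ⟨⟨hA, hvA⟩, hxA⟩
      refine ⟨hA, fun i => ?_⟩
      induction i using Fin.lastCases with
      | last => simpa using hxA
      | cast j => simpa using hvA j
    · rintro ⟨hA, hvA⟩
      refine ⟨⟨hA, fun i => ?_⟩, ?_⟩
      · simpa using hvA i.castSucc
      · simpa using hvA (Fin.last k)
  -- (2)
  have htwo : ∀ A ∈ T, (G.filter (fun x => x ∈ A)).card = (q - 1) * (q + 1 - k) := by
    intro A hA
    rw [hTm A] at hA
    obtain ⟨⟨φ, hφ⟩, hvA⟩ := hA
    subst hφ
    have hvA' : ∀ i, ∃ (t : Option F) (c : F), c ≠ 0 ∧ v i = c • φ (nrc k t) := hvA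
    choose t c hc hvt using hvA'
    have htinj : Function.Injective t := by
      intro i j hij
      by_contra hne
      have h1 : v j = (c j / c i) • v i := by
        rw [hvt i, hvt j, hij, smul_smul, div_mul_cancel₀ _ (hc i)]
      have h2 := congrArg (fun y => b.repr y j) h1
      simp [hrep, hne] at h2
    have key : ∀ (a : F) (s : Option F), a ≠ 0 → (a • φ (nrc k s) ∈ G ↔ s ∉ Set.range t) := by
      intro a s ha
      constructor
      · rintro hx ⟨i, rfl⟩
        simp only [G, mem_filter, mem_univ, true_and] at hx
        obtain ⟨j, hj⟩ : ∃ j : Fin k, j ≠ i := by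
          have : Nontrivial (Fin k) := Fin.nontrivial_iff_two_le.mpr (by omega)
          exact exists_ne i
        apply hx j
        have h1 : a • φ (nrc k (t i)) = (a / c i) • v i := by
          rw [hvt i, smul_smul, div_mul_cancel₀ _ (hc i)]
        rw [h1]
        simp [hrep, hj.symm]
      · intro hs
        simp only [G, mem_filter, mem_univ, true_and]
        intro j hj
        have hinj : Function.Injective (Fin.snoc t s : Fin (k + 1) → Option F) := by
          rw [Fin.snoc_injective_iff]
          exact ⟨htinj, hs⟩
        have harc := hNAR F (Fin (k + 1)) k (Fin.snoc t s) hinj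
        rw [arc_iff] at harc
        have h1 := harc (Fin.snoc (fun i => b.repr (a • φ (nrc k s)) i * c i) (-a)) j.castSucc (by
          simp only [Fin.snoc_castSucc, hj, zero_mul]) ?_ (Fin.last k)
        · simp only [Fin.snoc_last, neg_eq_zero] at h1
          exact ha h1
        · rw [Fin.sum_univ_castSucc]
          simp only [Fin.snoc_castSucc, Fin.snoc_last]
          apply φ.injective
          rw [map_add, map_sum, map_zero]
          simp only [map_smul]
          have h2 : ∑ i, (b.repr (a • φ (nrc k s)) i * c i) • φ (nrc k (t i)) = a • φ (nrc k s) := by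
            have h3 : ∀ i, (b.repr (a • φ (nrc k s)) i * c i) • φ (nrc k (t i)) =
                b.repr (a • φ (nrc k s)) i • b i := by
              intro i
              rw [hb i, hvt i, smul_smul]
            rw [Finset.sum_congr rfl (fun i _ => h3 i)]
            exact b.sum_repr _
          rw [map_smul] at h2
          rw [h2]
          simp
    have h3 : (G.filter (fun x => x ∈ cone φ)).card =
        (((univ : Finset F).erase 0) ×ˢ ((univ : Finset (Option F)) \ univ.image t)).card := by
      symm
      refine Finset.card_bij (fun p _ => p.1 • φ (nrc k p.2)) ?_ ?_ ?_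
      · rintro ⟨a, s⟩ hp
        simp only [mem_product, mem_erase, mem_univ, and_true, mem_sdiff, true_and, mem_image, not_exists] at hp
        simp only [mem_filter]
        refine ⟨(key a s hp.1).mpr ?_, s, a, hp.1, rfl⟩
        rintro ⟨i, hi⟩
        exact hp.2 i hi
      · rintro ⟨a, s⟩ hp ⟨a', s'⟩ hp' h
        simp only [mem_product, mem_erase, mem_univ, and_true, mem_sdiff, true_and, mem_image, not_exists] at hp hp'
        have h4 : φ (a • nrc k s) = φ (a' • nrc k s') := by
          rw [map_smul, map_smul]
          exact h
        obtain ⟨h5, h6⟩ := nrc_inj (by omega) a a' s s' hp.1 hp'.1 (φ.injective h4)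
        rw [h5, h6]
      · intro x hx
        simp only [mem_filter] at hx
        obtain ⟨hxG, s, a, ha, rfl⟩ := hx
        refine ⟨(a, s), ?_, rfl⟩
        simp only [mem_product, mem_erase, mem_univ, and_true, mem_sdiff, true_and, mem_image, not_exists]
        refine ⟨ha, fun i hi => ?_⟩
        exact (key a s ha).mp hxG ⟨i, hi⟩
    rw [h3, Finset.card_product, Finset.card_sdiff_of_subset (Finset.subset_univ _),
      Finset.card_image_of_injective _ htinj]
    simp [hq]
  have hdc := Finset.card_mul_eq_card_mul (s := T) (t := G) (fun A x => x ∈ A) htwo hone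
  rw [hT]
  rw [hG] at hdc
  obtain ⟨m, rfl⟩ : ∃ m, k = m + 3 := ⟨k - 3, by omega⟩
  have h5 : (q - 2).descFactorial (m + 3 - 2) = (q + 1 - (m + 3)) * (q - 2).descFactorial (m + 3 - 3) := by
    have e1 : m + 3 - 2 = (m + 3 - 3) + 1 := by omega
    rw [e1, Nat.descFactorial_succ]
    congr 1
    omega
  rw [h5] at hdc
  have hpos : 0 < (q - 1) * (q + 1 - (m + 3)) := by
    apply Nat.mul_pos <;> omega
  apply Nat.eq_of_mul_eq_mul_right hpos
  rw [hdc]
  have e2 : m + 3 - 1 + 1 = m + 3 := by omega
  rw [show (q - 1) ^ (m + 3) = (q - 1) ^ (m + 3 - 1) * (q - 1) by rw [← pow_succ, e2]]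
  ring

end Pool.Agent.Q185.NCC
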